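import Pool.Agent.H705.FP.Stm

/-! # Sums over zeros with random ordinates and fixed phases: part BIG -/

set_option autoImplicit false

namespace Pool.Agent.H806.FP

open MeasureTheory ProbabilityTheory Filter Topology Finset
open Pool.Agent.H705.FP

/-- a uniform bound for the amplitudes -/
theorem amp_bound {a : ℕ → ℝ} (ha : Pool.Agent.H705.RO.Amp a) :
    ∃ B : ℝ, 1 ≤ B ∧ ∀ M : ℕ, Pool.Agent.H705.RO.R a M ≤ B * M := by
  obtain ⟨ha0, ha1⟩ := ha
  obtain ⟨C, hC⟩ := ha1 (1 / 2) (by norm_num)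
  have hC0 : 0 ≤ C := by
    have h := hC 1 1 le_rfl le_rfl
    simp at h
    exact h
  have hb : ∀ n : ℕ, 1 ≤ n → a n ≤ C + 1 := by
    intro n hn
    have h := hC n (n + 1) hn (Nat.le_succ n)
    rw [Nat.Ico_succ_singleton, Finset.sum_singleton] at h
    have hn1 : (1 : ℝ) ≤ (n : ℝ) := by exact_mod_cast hn
    have h1 : (n : ℝ) ^ (-1 + 1 / 2 : ℝ) ≤ 1 :=
      Real.rpow_le_one_of_one_le_of_nonpos hn1 (by norm_num)
    have h2 : a n ^ 2 ≤ C := by nlinarith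
    nlinarith [ha0 n, sq_nonneg (a n - 1)]
  refine ⟨a 0 + C + 1, by linarith [ha0 0], fun M => ?_⟩
  have hle : ∀ n ∈ range M, a n ≤ a 0 + C + 1 := by
    intro n _
    rcases Nat.eq_zero_or_pos n with h | h
    · subst h; linarith
    · linarith [hb n h, ha0 0]
  calc Pool.Agent.H705.RO.R a M = ∑ n ∈ range M, a n := rfl
    _ ≤ ∑ _n ∈ range M, (a 0 + C + 1) := Finset.sum_le_sum hle
    _ = (a 0 + C + 1) * M := by rw [Finset.sum_const, Finset.card_range, nsmul_eq_mul, mul_comm]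

theorem T_BIG (hAVE : P_AVE) (hKRO : P_KRO) : P_BIG := by
  intro γ hSep a β hAmp σ hσ c hc0 hc1
  have ha0 : ∀ n, 0 ≤ a n := hAmp.1
  -- the choice of `K`
  obtain ⟨K, hK1, hKc⟩ : ∃ K : ℕ, 1 ≤ K ∧ c ≤ (K : ℝ) / (K + 1) := by
    refine ⟨⌈c / (1 - c)⌉₊ + 1, Nat.le_add_left 1 _, ?_⟩
    have h1 : c / (1 - c) ≤ (⌈c / (1 - c)⌉₊ : ℝ) := Nat.le_ceil _
    have h2 : 0 < 1 - c := by linarith
    rw [div_le_iff₀ h2] at h1
    rw [le_div_iff₀ (by positivity)]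
    push_cast
    nlinarith
  obtain ⟨N₁, hN₁⟩ := hSep (K + 1)
  obtain ⟨B, hB1, hB⟩ := amp_bound hAmp
  -- the constants
  set D' : ℝ := 2 * ((K + 1 : ℕ) : ℝ) + 3 with hD'
  have hD'0 : 0 ≤ D' := by positivity
  have hKr : (1 : ℝ) ≤ (K : ℝ) := by exact_mod_cast hK1
  refine ⟨D' + 2 * K + 5, by linarith, fun q => ?_⟩
  -- large `N`
  have hlim : ∀ p : ℕ, Tendsto (fun N : ℕ => (N : ℝ) ^ p * Real.exp (-(N : ℝ))) atTop (𝓝 0) := fun p =>
    (Real.tendsto_pow_mul_exp_neg_atTop_nhds_zero p).comp tendsto_natCast_atTop_atTop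
  have hq := (hlim q).eventually (ge_mem_nhds (show (0 : ℝ) < 1 by norm_num))
  have h4 := (hlim 4).eventually (ge_mem_nhds (show (0 : ℝ) < 1 / (6 * B) by positivity))
  have h4' := (hlim 0).eventually (ge_mem_nhds (show (0 : ℝ) < 1 / 4 by norm_num))
  obtain ⟨N₂, hN₂⟩ := eventually_atTop.1 (hq.and (h4.and h4'))
  refine ⟨max (max N₁ N₂) 2, fun N hN => ?_⟩
  have hNN₁ : N₁ ≤ N := le_trans (le_trans (le_max_left _ _) (le_max_left _ _)) hN
  have hNN₂ : N₂ ≤ N := le_trans (le_trans (le_max_right _ _) (le_max_left _ _)) hN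
  have hN2 : 2 ≤ N := le_trans (le_max_right _ _) hN
  obtain ⟨hq', h41, h40⟩ := hN₂ N hNN₂
  have hNr : (2 : ℝ) ≤ (N : ℝ) := by exact_mod_cast hN2
  have hNM : N < N ^ 4 := by
    calc N = N ^ 1 := (pow_one N).symm
      _ < N ^ 4 := Nat.pow_lt_pow_right (by omega) (by norm_num)
  -- `H`, `η`, `E`
  set H : ℝ := Real.exp ((D' + 2 * K + 4) * N) with hH
  set η : ℝ := Real.exp (-(D' * N)) with hη
  have hHpos : 0 < H := Real.exp_pos _
  have hηpos : 0 < η := Real.exp_pos _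
  have hHη : H * η = Real.exp ((2 * K + 4) * N) := by
    rw [hH, hη, ← Real.exp_add]; congr 1; ring
  set E : ℝ := (2 * (K : ℝ) + 1) ^ N * 2 / (H * η) with hE
  have hE0 : 0 ≤ E := by positivity
  have hpow : (2 * (K : ℝ) + 1) ^ N ≤ Real.exp (2 * K * N) := by
    have h1 : 2 * (K : ℝ) + 1 ≤ Real.exp (2 * K) := Real.add_one_le_exp _
    calc (2 * (K : ℝ) + 1) ^ N ≤ (Real.exp (2 * K)) ^ N := pow_le_pow_left₀ (by positivity) h1 N
      _ = Real.exp (2 * K * N) := by rw [← Real.exp_nat_mul]; congr 1; ring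
  have hEle : E ≤ 2 * Real.exp (-(N : ℝ)) := by
    rw [hE, hHη, div_le_iff₀ (Real.exp_pos _)]
    have h1 : Real.exp (2 * K * N) ≤ Real.exp (-(N : ℝ)) * Real.exp ((2 * K + 4) * N) := by
      rw [← Real.exp_add]
      apply Real.exp_le_exp.2
      nlinarith
    nlinarith
  have hE12 : E ≤ 1 / 2 := by
    simp only [pow_zero, one_mul] at h40
    linarith
  have hR : 3 * E * Pool.Agent.H705.RO.R a (N ^ 4) ≤ 1 := by
    have h1 := hB (N ^ 4)
    push_cast at h1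
    have h2 : (0 : ℝ) ≤ (N : ℝ) ^ 4 := by positivity
    have hB0 : 0 ≤ B := by linarith
    calc 3 * E * Pool.Agent.H705.RO.R a (N ^ 4) ≤ 3 * E * (B * (N : ℝ) ^ 4) :=
          mul_le_mul_of_nonneg_left h1 (by positivity)
      _ ≤ 3 * (2 * Real.exp (-(N : ℝ))) * (B * (N : ℝ) ^ 4) :=
          mul_le_mul_of_nonneg_right (by linarith) (by positivity)
      _ = 6 * B * ((N : ℝ) ^ 4 * Real.exp (-(N : ℝ))) := by ring
      _ ≤ 6 * B * (1 / (6 * B)) := mul_le_mul_of_nonneg_left h41 (by positivity)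
      _ = 1 := by field_simp
  -- the phases
  obtain ⟨β', hβ'⟩ : ∃ β' : ℕ → ℝ, ∀ n t, wv a β' γ n t = σ * wv a β γ n t := by
    rcases hσ with h | h
    · exact ⟨β, fun n t => by rw [h, one_mul]⟩
    · refine ⟨fun n => β n + Real.pi, fun n t => ?_⟩
      simp only [wv, h]
      rw [show γ n * t + (β n + Real.pi) = (γ n * t + β n) + Real.pi by ring, Real.cos_add_pi]
      ring
  -- AVE and KRO
  have hS : Sep γ (K + 1) D' N := hN₁ N hNN₁
  have hform : ∀ k : ℕ → ℤ, (∀ n, |k n| ≤ (K : ℤ) + 1) → ∀ s : ℤ, |s| ≤ 1 → ∀ m : ℕ, N ≤ m → m < N ^ 4 →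
      ((∃ n < N, k n ≠ 0) ∨ s ≠ 0) → η ≤ |∑ n ∈ range N, (k n : ℝ) * γ n + (s : ℝ) * γ m| := by
    intro k hk s hs m hm hm' hks
    exact hS k (fun n => by push_cast; exact hk n) s hs m hm hm' hks
  obtain ⟨hI, hJ1, hJ2⟩ := hAVE γ β' K N (N ^ 4) η H hK1 hNM hηpos hHpos hform
  obtain ⟨t, ht1, ht2, ht3⟩ := hKRO γ β' a K N (N ^ 4) H E hK1 hNM ha0 hHpos hE0 hE12 hI hJ1 hJ2
  refine ⟨t, ?_, ?_, ?_⟩
  · refine le_trans ?_ ht1
    have h1 : (N : ℝ) ^ q ≤ Real.exp N := by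
      rw [Real.exp_neg, ← div_eq_mul_inv, div_le_one (Real.exp_pos _)] at hq'
      exact hq'
    refine h1.trans (Real.exp_le_exp.2 ?_)
    nlinarith
  · refine le_trans ht2 ?_
    have h1 : (2 : ℝ) ≤ Real.exp N := by
      have := Real.add_one_le_exp (N : ℝ)
      linarith
    calc 2 * H ≤ Real.exp N * H := mul_le_mul_of_nonneg_right h1 hHpos.le
      _ = Real.exp ((D' + 2 * K + 5) * N) := by
        rw [hH, ← Real.exp_add]; congr 1; ring
  · have hpart : Pool.Agent.H705.RO.part (wv a β' γ) (N ^ 4) t =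
        σ * Pool.Agent.H705.RO.part (wv a β γ) (N ^ 4) t := by
      simp only [Pool.Agent.H705.RO.part, Finset.mul_sum]
      exact Finset.sum_congr rfl fun n _ => hβ' n t
    rw [← hpart]
    have hRN : 0 ≤ Pool.Agent.H705.RO.R a N := Finset.sum_nonneg fun n _ => ha0 n
    have h1 : c * Pool.Agent.H705.RO.R a N ≤ (K : ℝ) / (K + 1) * Pool.Agent.H705.RO.R a N :=
      mul_le_mul_of_nonneg_right hKc hRN
    linarith

end Pool.Agent.H806.FP
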